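import Mathlib
import Pool.Agent.Q276.Asm

set_option autoImplicit false

/-!
The tree-width threshold `f H` is not always increased by one by attaching a pendant vertex: there
are a planar graph `H` (disjoint triangles together with a forest) and a vertex `v` of `H` such that
`f H' ≠ f H + 1` for the graph `H'` obtained by attaching a pendant vertex at `v`.
-/

namespace Pool.Agent.Results.MP_420e77_co.PendantVertex

/-- `G` has a tree decomposition of width at most `w`: a tree `T` and bags covering all vertices and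
edges, such that the nodes whose bag contains a given vertex induce a connected subgraph of `T`, all
bags having at most `w + 1` vertices -/
def TwLE {V : Type} (G : SimpleGraph V) (w : ℕ) : Prop :=
  ∃ m : ℕ, ∃ T : SimpleGraph (Fin m), ∃ bag : Fin m → Set V,
    T.IsTree ∧ (∀ v, ∃ i, v ∈ bag i) ∧
    (∀ u v, G.Adj u v → ∃ i, u ∈ bag i ∧ v ∈ bag i) ∧
    (∀ v, (T.induce {i | v ∈ bag i}).Connected) ∧
    ∀ i, (bag i).ncard ≤ w + 1

/-- the treewidth of a finite graph -/
noncomputable def tw {V : Type} (G : SimpleGraph V) : ℕ := sInf {w | TwLE G w}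

/-- `H` is a minor of `G`: there are pairwise disjoint connected branch sets, one for each vertex of
`H`, with an edge of `G` between any two branch sets belonging to adjacent vertices of `H` -/
def IsMinor {W V : Type} (H : SimpleGraph W) (G : SimpleGraph V) : Prop :=
  ∃ B : W → Set V, (∀ x, (G.induce (B x)).Connected) ∧
    (∀ x y, x ≠ y → Disjoint (B x) (B y)) ∧
    ∀ x y, H.Adj x y → ∃ u ∈ B x, ∃ v ∈ B y, G.Adj u v

/-- a finite graph is planar if and only if it has neither `K_5` nor `K_{3,3}` as a minor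
(Wagner's theorem); here this is the definition of planarity -/
def Planar {W : Type} (H : SimpleGraph W) : Prop :=
  ¬ IsMinor (⊤ : SimpleGraph (Fin 5)) H ∧
    ¬ IsMinor (completeBipartiteGraph (Fin 3) (Fin 3)) H

/-- `f H`: the least integer `k` such that every finite graph `G` (with at least one vertex) of
treewidth at least `k` contains `H` as a minor (and `⊤` if there is no such integer) -/
noncomputable def f {W : Type} (H : SimpleGraph W) : ℕ∞ :=
  ⨅ (k : ℕ) (_ : ∀ (V : Type) [Fintype V] [Nonempty V] (G : SimpleGraph V),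
    k ≤ tw G → IsMinor H G), (k : ℕ∞)

/-- the graph obtained from `H` by attaching a pendant vertex at `v`; the new vertex is `none` and
its only neighbour is `v` -/
def pendant {W : Type} (H : SimpleGraph W) (v : W) : SimpleGraph (Option W) where
  Adj x y :=
    match x, y with
    | some a, some b => H.Adj a b
    | none, some a => a = v
    | some a, none => a = v
    | none, none => False
  symm := ⟨by
    rintro (_ | a) (_ | b) h
    · exact h
    · exact h
    · exact h
    · exact h.symm⟩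
  loopless := ⟨by
    rintro (_ | a) h
    · exact h
    · exact H.loopless.irrefl a h⟩

open Pool.Agent.W126.Split Pool.Agent.Q276.Tw Finset SimpleGraph

/-! ### Translation -/

lemma not_bw {V : Type} [Fintype V] [DecidableEq V] [Nonempty V] (G : SimpleGraph V) (w : ℕ)
    (h : w ≤ tw G) : ¬ Bw G Finset.univ w := by
  intro hb
  obtain ⟨m, T, bag, h1, h2, h3, h4, h5⟩ := td_of_bw hb
  rcases Nat.eq_zero_or_pos w with h0 | h0
  · obtain ⟨v⟩ := ‹Nonempty V›
    obtain ⟨i, hi⟩ := h2 v
    have h6 := h5 i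
    rw [h0, Nat.le_zero, Set.ncard_eq_zero (Set.toFinite _)] at h6
    rw [h6] at hi
    exact hi
  · have h6 : TwLE G (w - 1) := ⟨m, T, bag, h1, h2, h3, h4, fun i => (h5 i).trans (by omega)⟩
    have h7 : tw G ≤ w - 1 := Nat.sInf_le h6
    omega

lemma isMinor_of_mod {W V : Type} [Fintype V] [DecidableEq V] {H : SimpleGraph W}
    {G : SimpleGraph V} {S : Finset V} (h : Mod H G S) : IsMinor H G := by
  obtain ⟨B, h1, h2, h3, h4, h5⟩ := h
  refine ⟨fun x => (B x : Set V), ?_, ?_, ?_⟩
  · intro x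
    have : Nonempty ((B x : Set V)) := by
      obtain ⟨v, hv⟩ := h2 x
      exact ⟨⟨v, hv⟩⟩
    refine SimpleGraph.Connected.mk ?_
    rintro ⟨a, ha⟩ ⟨b, hb⟩
    obtain ⟨p, hp⟩ := h3 x a ha b hb
    have key : ∀ {a b : V} (p : G.Walk a b) (hp : ∀ z ∈ p.support, z ∈ B x)
        (ha : a ∈ (B x : Set V)) (hb : b ∈ (B x : Set V)),
        (G.induce (B x : Set V)).Reachable ⟨a, ha⟩ ⟨b, hb⟩ := by
      intro a b p
      induction p with
      | nil => intro _ _ _; exact Reachable.refl _
      | @cons a c b hadj p ih =>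
        intro hp ha hb
        have hc : c ∈ (B x : Set V) := hp c (by simp)
        have h1 : (G.induce (B x : Set V)).Adj ⟨a, ha⟩ ⟨c, hc⟩ := hadj
        exact h1.reachable.trans (ih (fun z hz => hp z (by simp [hz])) hc hb)
    exact key p hp _ _
  · intro x y hxy
    rw [Finset.disjoint_coe]
    exact h4 x y hxy
  · intro x y hxy
    obtain ⟨u, hu, v, hv, huv⟩ := h5 x y hxy
    exact ⟨u, hu, v, hv, huv⟩

lemma mod_of_isMinor {W V : Type} [Fintype V] [DecidableEq V] {H : SimpleGraph W}
    {G : SimpleGraph V} (h : IsMinor H G) : Mod H G Finset.univ := by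
  classical
  obtain ⟨B, h1, h2, h3⟩ := h
  refine ⟨fun x => univ.filter (fun v => v ∈ B x), fun x => subset_univ _, ?_, ?_, ?_, ?_⟩
  · intro x
    obtain ⟨⟨v, hv⟩⟩ := (h1 x).nonempty
    exact ⟨v, mem_filter.2 ⟨mem_univ _, hv⟩⟩
  · intro x u hu v hv
    rw [mem_filter] at hu hv
    obtain ⟨p⟩ := (h1 x).preconnected ⟨u, hu.2⟩ ⟨v, hv.2⟩
    obtain ⟨q, hq⟩ := Pool.Agent.W126.TAC.walk_of_induce p
    exact ⟨q, fun z hz => mem_filter.2 ⟨mem_univ _, hq z hz⟩⟩
  · intro x y hxy
    rw [Finset.disjoint_left]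
    intro v hv hv'
    rw [mem_filter] at hv hv'
    exact Set.disjoint_left.1 (h2 x y hxy) hv.2 hv'.2
  · intro x y hxy
    obtain ⟨u, hu, v, hv, huv⟩ := h3 x y hxy
    exact ⟨u, mem_filter.2 ⟨mem_univ _, hu⟩, v, mem_filter.2 ⟨mem_univ _, hv⟩, huv⟩

lemma walk_down {V : Type} {G : SimpleGraph V} {A : Set V} {a b : A} (p : (G.induce A).Walk a b) :
    ∃ q : G.Walk a.1 b.1, ∀ z ∈ q.support, ∃ y ∈ p.support, y.1 = z := by
  induction p with
  | @nil u =>
    refine ⟨Walk.nil, fun z hz => ⟨u, by simp, ?_⟩⟩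
    rw [Walk.support_nil, List.mem_singleton] at hz
    exact hz.symm
  | @cons a c b hadj p ih =>
    obtain ⟨q, hq⟩ := ih
    have h1 : G.Adj a.1 c.1 := hadj
    refine ⟨Walk.cons h1 q, fun z hz => ?_⟩
    rw [Walk.support_cons, List.mem_cons] at hz
    rcases hz with rfl | hz
    · exact ⟨a, by simp, rfl⟩
    · obtain ⟨y, hy, h⟩ := hq z hz
      exact ⟨y, by simp [hy], h⟩

/-- branch sets in an induced subgraph -/
lemma mod_of_induce {W V : Type} [Fintype V] [DecidableEq V] {H : SimpleGraph W}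
    {G : SimpleGraph V} {S : Finset V} (h : IsMinor H (G.induce (S : Set V))) : Mod H G S := by
  classical
  obtain ⟨B, h1, h2, h3, h4, h5⟩ := mod_of_isMinor h
  have hmem : ∀ x z, z ∈ (B x).map (Function.Embedding.subtype _) ↔
      ∃ hz : z ∈ (S : Set V), (⟨z, hz⟩ : (S : Set V)) ∈ B x := by
    intro x z
    rw [mem_map]
    constructor
    · rintro ⟨⟨y, hy⟩, hyB, rfl⟩
      exact ⟨hy, hyB⟩
    · rintro ⟨hz, hzB⟩
      exact ⟨_, hzB, rfl⟩
  refine ⟨fun x => (B x).map (Function.Embedding.subtype _), ?_, ?_, ?_, ?_, ?_⟩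
  · intro x z hz
    obtain ⟨hz', -⟩ := (hmem x z).1 hz
    exact mem_coe.1 hz'
  · intro x
    exact (h2 x).map
  · intro x u hu v hv
    obtain ⟨hu', huB⟩ := (hmem x u).1 hu
    obtain ⟨hv', hvB⟩ := (hmem x v).1 hv
    obtain ⟨p, hp⟩ := h3 x _ huB _ hvB
    obtain ⟨q, hq⟩ := walk_down p
    refine ⟨q, fun z hz => ?_⟩
    obtain ⟨y, hy, rfl⟩ := hq z hz
    exact (hmem x _).2 ⟨y.2, hp y hy⟩
  · intro x y hxy
    rw [Finset.disjoint_left]
    intro v hv hv'
    obtain ⟨h6, h7⟩ := (hmem x v).1 hv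
    obtain ⟨h8, h9⟩ := (hmem y v).1 hv'
    exact Finset.disjoint_left.1 (h4 x y hxy) h7 h9
  · intro x y hxy
    obtain ⟨u, hu, v, hv, huv⟩ := h5 x y hxy
    exact ⟨u.1, (hmem x _).2 ⟨u.2, hu⟩, v.1, (hmem y _).2 ⟨v.2, hv⟩, huv⟩

/-- the two ways to say that treewidth at least `k` forces `H` agree -/
lemma force_iff {W : Type} (H : SimpleGraph W) (k : ℕ) :
    (∀ (V : Type) [Fintype V] [Nonempty V] (G : SimpleGraph V), k ≤ tw G → IsMinor H G) ↔
      Force H k := by
  classical
  constructor
  · intro h V _ _ G S hb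
    have hne : S.Nonempty := by
      rw [nonempty_iff_ne_empty]
      rintro rfl
      exact hb ((bw_card ∅).mono Subset.rfl (by simp))
    have : Nonempty ((S : Set V)) := by
      obtain ⟨v, hv⟩ := hne
      exact ⟨⟨v, hv⟩⟩
    refine mod_of_induce (h _ (G.induce (S : Set V)) ?_)
    by_contra hlt
    push Not at hlt
    have h1 : TwLE (G.induce (S : Set V)) (tw (G.induce (S : Set V))) := by
      have h : {w | TwLE (G.induce (S : Set V)) w}.Nonempty := by
        obtain ⟨m, T, bag, h1, h2, h3, h4, h5⟩ :=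
          td_of_bw (bw_card (G := G.induce (S : Set V)) Finset.univ)
        exact ⟨_, m, T, bag, h1, h2, h3, h4, fun i => (h5 i).trans (Nat.le_succ _)⟩
      exact Nat.sInf_mem h
    have h2 : Bw G S (tw (G.induce (S : Set V)) + 1) := bw_of_td (S : Set V) S rfl h1
    exact hb (h2.mono Subset.rfl hlt)
  · intro h V _ _ G hk
    exact isMinor_of_mod (h V G univ (not_bw G k hk))

lemma f_eq {W : Type} {H : SimpleGraph W} (h : Ex H) : f H = thr H := by
  apply le_antisymm
  · exact iInf_le_of_le _ (iInf_le_of_le ((force_iff H _).2 h.force) le_rfl)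
  · refine le_iInf fun k => le_iInf fun hk => ?_
    exact_mod_cast thr_le ((force_iff H k).1 hk)

lemma ex_of_lt {W : Type} {H : SimpleGraph W} (h : f H < ⊤) : Ex H := by
  unfold f at h
  rw [iInf_lt_iff] at h
  obtain ⟨k, hk⟩ := h
  rw [iInf_lt_iff] at hk
  obtain ⟨hk, -⟩ := hk
  exact ⟨k, (force_iff H k).1 hk⟩

/-! ### Planarity -/

/-- a minor with more edges than vertices needs a subgraph with more edges than vertices -/
lemma no_minor {V W P : Type} [Fintype V] [DecidableEq V] [Fintype W] [DecidableEq W] [Fintype P]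
    {G : SimpleGraph V} (hG : Pf G) {H : SimpleGraph W} (a b : P → W)
    (hadj : ∀ p, H.Adj (a p) (b p))
    (hinj : ∀ p q, (a p = a q ∧ b p = b q) ∨ (a p = b q ∧ b p = a q) → p = q)
    (hc : Fintype.card W < Fintype.card P) : ¬ IsMinor H G := by
  classical
  rintro ⟨B, h1, h2, h3⟩
  obtain ⟨E, hE1, hE2⟩ := Pool.Agent.TH507.Host.count_model (G := G) (fun x => (B x).toFinset)
    (fun x => by rw [Set.coe_toFinset]; exact h1 x)
    (fun x y hxy => by
      rw [← Finset.disjoint_coe, Set.coe_toFinset, Set.coe_toFinset]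
      exact h2 x y hxy)
    a b (fun p => (hadj p).ne) hinj
    (fun p => by
      obtain ⟨u, hu, v, hv, huv⟩ := h3 _ _ (hadj p)
      exact ⟨u, Set.mem_toFinset.2 hu, v, Set.mem_toFinset.2 hv, huv⟩)
  set U : Finset V := univ.biUnion (fun x => (B x).toFinset) with hU
  have h4 : E.card * 2 ≤ e2 G U := by
    rw [e2_eq]
    set D := (U ×ˢ U).filter (fun p => G.Adj p.1 p.2) with hD
    have h5 : ∀ e ∈ E, 2 ≤ (D.filter (fun p => s(p.1, p.2) = e)).card := by
      intro e he
      obtain ⟨x, hx, y, hy, rfl, hxy⟩ := hE1 e he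
      have h6 : ({(x, y), (y, x)} : Finset (V × V)) ⊆ D.filter (fun p => s(p.1, p.2) = s(x, y)) := by
        intro p hp
        rw [mem_insert, mem_singleton] at hp
        rcases hp with rfl | rfl
        · exact mem_filter.2 ⟨mem_filter.2 ⟨mem_product.2 ⟨hx, hy⟩, hxy⟩, rfl⟩
        · exact mem_filter.2 ⟨mem_filter.2 ⟨mem_product.2 ⟨hy, hx⟩, hxy.symm⟩, Sym2.eq_swap⟩
      have h7 := card_le_card h6
      rwa [card_pair (fun h => hxy.ne (congrArg Prod.fst h))] at h7
    calc E.card * 2 = ∑ e ∈ E, 2 := by rw [sum_const, smul_eq_mul]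
      _ ≤ ∑ e ∈ E, (D.filter (fun p => s(p.1, p.2) = e)).card := sum_le_sum h5
      _ = (D.filter (fun p => s(p.1, p.2) ∈ E)).card := by
          have h8 := card_eq_sum_card_fiberwise (f := fun p : V × V => s(p.1, p.2)) (t := E)
            (s := D.filter (fun p => s(p.1, p.2) ∈ E)) (fun p hp => (mem_filter.1 hp).2)
          rw [h8]
          refine sum_congr rfl fun e he => ?_
          congr 1
          ext p
          constructor
          · intro h10
            obtain ⟨h8, h9⟩ := mem_filter.1 h10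
            exact mem_filter.2 ⟨mem_filter.2 ⟨h8, by rw [h9]; exact he⟩, h9⟩
          · intro h10
            obtain ⟨h8, h9⟩ := mem_filter.1 h10
            exact mem_filter.2 ⟨(mem_filter.1 h8).1, h9⟩
      _ ≤ D.card := card_filter_le _ _
  have h5 := hG U
  omega

lemma planar_of_pf {V : Type} [Fintype V] [DecidableEq V] {G : SimpleGraph V} (hG : Pf G) :
    Planar G := by
  constructor
  · refine no_minor (P := {p : Fin 5 × Fin 5 // p.1 < p.2}) hG (fun p => p.1.1) (fun p => p.1.2)
      (fun p => p.2.ne) ?_ (by decide)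
    rintro ⟨⟨p1, p2⟩, hp⟩ ⟨⟨q1, q2⟩, hq⟩ h
    simp only at h hp hq
    rcases h with ⟨rfl, rfl⟩ | ⟨rfl, rfl⟩
    · rfl
    · exact absurd hp (lt_asymm hq)
  · refine no_minor (P := Fin 3 × Fin 3) hG (fun p => Sum.inl p.1) (fun p => Sum.inr p.2)
      (fun p => by simp) ?_ (by decide)
    rintro ⟨p1, p2⟩ ⟨q1, q2⟩ h
    simp only [Sum.inl.injEq, Sum.inr.injEq, reduceCtorEq, and_self, or_false] at h
    rw [h.1, h.2]

/-- **Q1 is false.** There are a finite planar graph `H` (with `f H < ∞`) and a vertex `v` of `H`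
such that `f H' ≠ f H + 1` for the graph `H'` obtained by attaching a pendant vertex at `v`. -/
theorem result : (∃ (W : Type) (_ : Fintype W) (H : SimpleGraph W) (v : W),
      Planar H ∧ f H < ⊤ ∧ f (pendant H v) ≠ f H + 1) ∧
    ¬ ∀ (W : Type) [Fintype W] (H : SimpleGraph W) (v : W), Planar H →
      f (pendant H v) = f H + 1 := by
  classical
  have key : ∃ (W : Type) (_ : Fintype W) (H : SimpleGraph W) (v : W),
      Planar H ∧ f H < ⊤ ∧ f (pendant H v) ≠ f H + 1 := by
    by_contra hcon
    push Not at hcon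
    apply not_hyp
    intro W _ _ H hPf hEx v
    have h1 : f H = thr H := f_eq hEx
    have h2 : f H < ⊤ := by
      rw [h1]
      exact WithTop.coe_lt_top _
    have h3 := hcon W inferInstance H v (planar_of_pf hPf) h2
    have h4 : f (pendant H v) < ⊤ := by
      rw [h3, h1]
      exact_mod_cast WithTop.coe_lt_top (thr H + 1)
    have h5 : Ex (pendant H v) := ex_of_lt h4
    refine ⟨h5, ?_⟩
    have h6 : f (pendant H v) = thr (pendant H v) := f_eq h5
    rw [h6, h1] at h3
    exact_mod_cast h3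
  refine ⟨key, fun hQ => ?_⟩
  obtain ⟨W, inst, H, v, h1, h2, h3⟩ := key
  exact h3 (hQ W H v h1)

end Pool.Agent.Results.MP_420e77_co.PendantVertex
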